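import Mathlib

/-!
# A lattice identity for subspace lattices that fails in `Sub((ℤ/p²)³)`

`bad a b c q r m` is the pair of the two sides of the inequality
`X ⊓ G (m * m) ≤ G m ⊔ N` in five variables.
-/

namespace Pool.Agent.Y100.LAT

section terms

variable {L : Type*} [Max L] [Min L]

/-- the terms `G k`: in a frame, the graph of the multiplication by `k` -/
def G (a b c q r : L) : ℕ → L
  | 0 => a
  | k + 1 => (((G a b c q r k ⊔ q) ⊓ (r ⊔ b)) ⊔ c) ⊓ (a ⊔ b)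

/-- first error term -/
def zz (a b c : L) : L := (a ⊓ (b ⊔ c)) ⊔ (b ⊓ (a ⊔ c)) ⊔ (c ⊓ (a ⊔ b))

/-- second error term, for elements that are already above the first one -/
def nn (b c q r : L) : L := (b ⊓ (q ⊔ (c ⊓ r))) ⊔ (c ⊓ r)

/-- left side, for a frame -/
def lhs0 (a b c q r : L) (m : ℕ) : L :=
  (a ⊓ (r ⊔ (c ⊓ (q ⊔ b)))) ⊓ G a b c q r (m * m)

/-- the second normalization -/
def st2 (f : L → L → L → L → L → L → L) (a b c q r : L) : L :=
  f (nn b c q r) (a ⊔ nn b c q r) (b ⊔ nn b c q r) (c ⊔ nn b c q r) (q ⊔ nn b c q r)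
    (r ⊔ nn b c q r)

/-- the first normalization -/
def st1 (f : L → L → L → L → L → L → L) (a b c q r : L) : L :=
  st2 f (a ⊔ zz a b c) (b ⊔ zz a b c) (c ⊔ zz a b c) ((q ⊓ (b ⊔ c)) ⊔ zz a b c)
    ((r ⊓ (a ⊔ c)) ⊔ zz a b c)

/-- the left side of the inequality -/
def lhs (m : ℕ) (a b c q r : L) : L :=
  st1 (fun _ a b c q r => lhs0 a b c q r m) a b c q r

/-- the right side of the inequality -/
def rhs (m : ℕ) (a b c q r : L) : L :=
  st1 (fun n a b c q r => G a b c q r m ⊔ n) a b c q r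

end terms

section subspaces

open Submodule

variable {D : Type*} [DivisionRing D] {V : Type*} [AddCommGroup V] [Module D V]

/-- a partial frame over `N` -/
structure Fr (N a b c q r : Submodule D V) : Prop where
  Na : N ≤ a
  Nb : N ≤ b
  Nc : N ≤ c
  ia : a ⊓ (b ⊔ c) ≤ N
  ib : b ⊓ (a ⊔ c) ≤ N
  ic : c ⊓ (a ⊔ b) ≤ N
  ra : r ≤ a ⊔ c
  qb : q ≤ b ⊔ c
  rc : r ⊓ c ≤ N
  qq : q ⊓ b ≤ N

theorem G_le (a b c q r : Submodule D V) (k : ℕ) : G a b c q r k ≤ a ⊔ b := by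
  cases k with
  | zero => exact le_sup_left
  | succ k => exact inf_le_right

theorem b_inf_G {N a b c q r : Submodule D V} (h : Fr N a b c q r) (k : ℕ) :
    ∀ v ∈ b, v ∈ G a b c q r k → v ∈ N := by
  induction k with
  | zero =>
    intro v hv hv'
    exact h.ib ⟨hv, mem_sup_left hv'⟩
  | succ k ih =>
    intro v hv hv'
    obtain ⟨h1, -⟩ := hv'
    obtain ⟨w, hw, ζ, hζ, rfl⟩ := mem_sup.mp h1
    obtain ⟨hw1, hw2⟩ := hw
    obtain ⟨vk, hvk, θ, hθ, hw1⟩ := mem_sup.mp hw1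
    obtain ⟨ρ, hρ, β, hβ, hw2⟩ := mem_sup.mp hw2
    have hρN : ρ ∈ N := by
      obtain ⟨α, hα, γ, hγ, hαγ⟩ := mem_sup.mp (h.ra hρ)
      have e : α = (w + ζ - β) + (-(ζ + γ)) := by
        rw [← hw2, ← hαγ]; abel
      have hαN : α ∈ N := h.ia ⟨hα, by
        rw [e]
        exact add_mem (mem_sup_left (sub_mem hv hβ)) (mem_sup_right (neg_mem (add_mem hζ hγ)))⟩
      refine h.rc ⟨hρ, ?_⟩
      rw [SetLike.mem_coe, ← hαγ]
      exact add_mem (h.Nc hαN) hγ
    have hζN : ζ ∈ N := by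
      refine h.ic ⟨hζ, ?_⟩
      have e : ζ = (w + ζ - β) - ρ := by
        rw [← hw2]; abel
      rw [SetLike.mem_coe, e]
      exact sub_mem (mem_sup_right (sub_mem hv hβ)) (mem_sup_right (h.Nb hρN))
    have hθN : θ ∈ N := by
      obtain ⟨β', hβ', γ', hγ', hθe⟩ := mem_sup.mp (h.qb hθ)
      have hγN : γ' ∈ N := by
        refine h.ic ⟨hγ', ?_⟩
        have e : γ' = ((w + ζ) - ζ - β') - vk := by
          rw [← hw1, ← hθe]; abel
        rw [SetLike.mem_coe, e]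
        exact sub_mem (mem_sup_right (sub_mem (sub_mem hv (h.Nb hζN)) hβ')) (G_le _ _ _ _ _ _ hvk)
      refine h.qq ⟨hθ, ?_⟩
      rw [SetLike.mem_coe, ← hθe]
      exact add_mem hβ' (h.Nb hγN)
    have hvkb : vk ∈ b := by
      have e : vk = (w + ζ) - ζ - θ := by
        rw [← hw1]; abel
      rw [e]
      exact sub_mem (sub_mem hv (h.Nb hζN)) (h.Nb hθN)
    have h5 := ih vk hvkb hvk
    rw [← hw1]
    exact add_mem (add_mem h5 hθN) hζN

theorem main_fr {N a b c q r : Submodule D V} (h : Fr N a b c q r) (m : ℕ) :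
    lhs0 a b c q r m ≤ G a b c q r m ⊔ N := by
  rintro x ⟨⟨hxa, hx⟩, hxG⟩
  obtain ⟨g, hg, z, ⟨hz, hz'⟩, hgz⟩ := mem_sup.mp hx
  obtain ⟨g', hg', y', hy', hgy⟩ := mem_sup.mp hz'
  -- z = g' + y'
  set y := y' with hy
  have claim : ∀ k : ℕ, x + (k : D) • y ∈ G a b c q r k := by
    intro k
    induction k with
    | zero => simpa [G] using hxa
    | succ k ih =>
      refine ⟨?_, ?_⟩
      · have h1 : (x + (k : D) • y) + (-g') ∈ G a b c q r k ⊔ q :=
          add_mem (mem_sup_left ih) (mem_sup_right (neg_mem hg'))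
        have h2 : g + ((k + 1 : ℕ) : D) • y ∈ r ⊔ b :=
          add_mem (mem_sup_left hg) (mem_sup_right (smul_mem _ _ hy'))
        have h3 : (x + (k : D) • y) + (-g') = g + ((k + 1 : ℕ) : D) • y := by
          push_cast
          rw [add_smul, one_smul, ← hgz, ← hgy]; abel
        have h4 : x + ((k + 1 : ℕ) : D) • y = (g + ((k + 1 : ℕ) : D) • y) + z := by
          rw [← hgz]; abel
        rw [h4]
        refine add_mem (mem_sup_left ⟨?_, h2⟩) (mem_sup_right hz)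
        rw [← h3]
        exact h1
      · exact add_mem (mem_sup_left hxa) (mem_sup_right (smul_mem _ _ hy'))
  have h1 : ((m * m : ℕ) : D) • y ∈ N := by
    refine b_inf_G h (m * m) _ (smul_mem _ _ hy') ?_
    have := sub_mem (claim (m * m)) hxG
    rwa [add_sub_cancel_left] at this
  have h2 : (m : D) • y ∈ N := by
    by_cases hm : (m : D) = 0
    · rw [hm, zero_smul]
      exact zero_mem _
    · have h3 := smul_mem N ((m : D)⁻¹) h1
      rwa [Nat.cast_mul, smul_smul, ← mul_assoc, inv_mul_cancel₀ hm, one_mul] at h3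
  have e : x = (x + (m : D) • y) - (m : D) • y := by abel
  rw [e]
  exact sub_mem (mem_sup_left (claim m)) (mem_sup_right h2)

theorem indep_gen {a b c z : Submodule D V} (hz : z ≤ b ⊔ c) (h : a ⊓ (b ⊔ c) ≤ z) :
    (a ⊔ z) ⊓ ((b ⊔ z) ⊔ (c ⊔ z)) ≤ z := by
  rintro x ⟨h1, h2⟩
  have h3 : (b ⊔ z) ⊔ (c ⊔ z) ≤ b ⊔ c :=
    sup_le (sup_le le_sup_left hz) (sup_le le_sup_right hz)
  have h4 : x ∈ b ⊔ c := h3 h2
  obtain ⟨α, hα, ζ, hζ, rfl⟩ := mem_sup.mp h1
  refine add_mem (h ⟨hα, ?_⟩) hζ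
  have := sub_mem h4 (hz hζ)
  rwa [add_sub_cancel_right] at this

theorem stage2 {z a b c q r : Submodule D V} (zc : z ≤ c) (zr : z ≤ r)
    (ia : a ⊓ (b ⊔ c) ≤ z) (ib : b ⊓ (a ⊔ c) ≤ z) (ic : c ⊓ (a ⊔ b) ≤ z)
    (hr : r ≤ a ⊔ c) (hq : q ≤ b ⊔ c) :
    Fr (nn b c q r) (a ⊔ nn b c q r) (b ⊔ nn b c q r) (c ⊔ nn b c q r) (q ⊔ nn b c q r)
      (r ⊔ nn b c q r) := by
  have hzN : z ≤ nn b c q r := le_trans (le_inf zc zr) le_sup_right
  have hN : ∀ n ∈ nn b c q r, ∃ kb, kb ∈ b ∧ kb ∈ q ⊔ (c ⊓ r) ∧ ∃ kc, kc ∈ c ∧ kc ∈ r ∧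
      kb + kc = n := by
    intro n hn
    obtain ⟨kb, ⟨h1, h2⟩, kc, ⟨h3, h4⟩, h5⟩ := mem_sup.mp hn
    exact ⟨kb, h1, h2, kc, h3, h4, h5⟩
  have hkb : ∀ kb, kb ∈ b → kb ∈ q ⊔ (c ⊓ r) → kb ∈ nn b c q r :=
    fun kb h1 h2 => mem_sup_left ⟨h1, h2⟩
  have hkc : ∀ kc, kc ∈ c → kc ∈ r → kc ∈ nn b c q r :=
    fun kb h1 h2 => mem_sup_right ⟨h1, h2⟩
  have hNbc : nn b c q r ≤ b ⊔ c := by
    intro n hn
    obtain ⟨kb, h1, -, kc, h3, -, rfl⟩ := hN n hn
    exact add_mem (mem_sup_left h1) (mem_sup_right h3)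
  refine ⟨le_sup_right, le_sup_right, le_sup_right, ?_, ?_, ?_, ?_, ?_, ?_, ?_⟩
  · exact indep_gen hNbc (ia.trans hzN)
  · rintro x ⟨h1, h2⟩
    obtain ⟨β, hβ, n, hn, rfl⟩ := mem_sup.mp h1
    have h3 : β ∈ (a ⊔ c) ⊔ nn b c q r := by
      have h4 : (a ⊔ nn b c q r) ⊔ (c ⊔ nn b c q r) ≤ (a ⊔ c) ⊔ nn b c q r :=
        sup_le (sup_le (le_sup_left.trans le_sup_left) le_sup_right)
          (sup_le (le_sup_right.trans le_sup_left) le_sup_right)
      have := sub_mem (h4 h2) (mem_sup_right hn : n ∈ (a ⊔ c) ⊔ nn b c q r)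
      rwa [add_sub_cancel_right] at this
    refine add_mem ?_ hn
    obtain ⟨u, hu, n', hn', h5⟩ := mem_sup.mp h3
    obtain ⟨kb, h6, h7, kc, h8, h9, rfl⟩ := hN n' hn'
    have h10 : β - kb ∈ z := by
      refine ib ⟨sub_mem hβ h6, ?_⟩
      have e : β - kb = u + kc := by rw [← h5]; abel
      rw [SetLike.mem_coe, e]
      exact add_mem hu (mem_sup_right h8)
    have e : β = (β - kb) + kb := by abel
    rw [e]
    exact add_mem (hzN h10) (hkb _ h6 h7)
  · rintro x ⟨h1, h2⟩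
    obtain ⟨γ, hγ, n, hn, rfl⟩ := mem_sup.mp h1
    have h3 : γ ∈ (a ⊔ b) ⊔ nn b c q r := by
      have h4 : (a ⊔ nn b c q r) ⊔ (b ⊔ nn b c q r) ≤ (a ⊔ b) ⊔ nn b c q r :=
        sup_le (sup_le (le_sup_left.trans le_sup_left) le_sup_right)
          (sup_le (le_sup_right.trans le_sup_left) le_sup_right)
      have := sub_mem (h4 h2) (mem_sup_right hn : n ∈ (a ⊔ b) ⊔ nn b c q r)
      rwa [add_sub_cancel_right] at this
    refine add_mem ?_ hn
    obtain ⟨u, hu, n', hn', h5⟩ := mem_sup.mp h3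
    obtain ⟨kb, h6, h7, kc, h8, h9, rfl⟩ := hN n' hn'
    have h10 : γ - kc ∈ z := by
      refine ic ⟨sub_mem hγ h8, ?_⟩
      have e : γ - kc = u + kb := by rw [← h5]; abel
      rw [SetLike.mem_coe, e]
      exact add_mem hu (mem_sup_right h6)
    have e : γ = (γ - kc) + kc := by abel
    rw [e]
    exact add_mem (hzN h10) (hkc _ h8 h9)
  · exact sup_le (hr.trans (sup_le_sup le_sup_left le_sup_left)) (le_sup_right.trans le_sup_left)
  · exact sup_le (hq.trans (sup_le_sup le_sup_left le_sup_left)) (le_sup_right.trans le_sup_left)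
  · rintro x ⟨h1, h2⟩
    obtain ⟨ρ, hρ, n, hn, rfl⟩ := mem_sup.mp h1
    obtain ⟨γ, hγ, n', hn', h3⟩ := mem_sup.mp h2
    obtain ⟨kb, h6, h7, kc, h8, h9, h10⟩ := hN (n - n') (sub_mem hn hn')
    -- ρ + n = γ + n'
    have h11 : kb ∈ z := by
      refine ib ⟨h6, ?_⟩
      have e : kb = -ρ + (γ - kc) := by
        have : kb = (n - n') - kc := by rw [← h10]; abel
        rw [this]
        have h12 : n = γ + n' - ρ := by rw [h3]; abel
        rw [h12]; abel
      rw [SetLike.mem_coe, e]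
      exact add_mem (neg_mem (hr hρ)) (mem_sup_right (sub_mem hγ h8))
    have h13 : ρ + kb + kc = γ := by
      have : kb + kc = γ - ρ := by
        rw [h10]
        have h12 : n = γ + n' - ρ := by rw [h3]; abel
        rw [h12]; abel
      rw [add_assoc, this]; abel
    have h14 : γ ∈ nn b c q r := by
      refine hkc _ hγ ?_
      rw [← h13]
      exact add_mem (add_mem hρ (zr h11)) h9
    rw [← h3]
    exact add_mem h14 hn'
  · rintro x ⟨h1, h2⟩
    obtain ⟨θ, hθ, n, hn, rfl⟩ := mem_sup.mp h1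
    obtain ⟨β, hβ, n', hn', h3⟩ := mem_sup.mp h2
    obtain ⟨kb, h6, h7, kc, h8, h9, h10⟩ := hN (n - n') (sub_mem hn hn')
    have h13 : θ + kc = β - kb := by
      have : kb + kc = β - θ := by
        rw [h10]
        have h12 : n = β + n' - θ := by rw [h3]; abel
        rw [h12]; abel
      have h14 : kc = β - θ - kb := by rw [← this]; abel
      rw [h14]; abel
    have h14 : β - kb ∈ nn b c q r := by
      refine hkb _ (sub_mem hβ h6) ?_
      rw [← h13]
      exact add_mem (mem_sup_left hθ) (mem_sup_right ⟨h8, h9⟩)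
    have h15 : β ∈ nn b c q r := by
      have e : β = (β - kb) + kb := by abel
      rw [e]
      exact add_mem h14 (hkb _ h6 h7)
    rw [← h3]
    exact add_mem h15 hn'

/-- The inequality `lhs m ≤ rhs m` holds in every subspace lattice. -/
theorem lhs_le_rhs (a b c q r : Submodule D V) (m : ℕ) :
    lhs m a b c q r ≤ rhs m a b c q r := by
  have z1 : zz a b c ≤ b ⊔ c :=
    sup_le (sup_le inf_le_right (inf_le_left.trans le_sup_left)) (inf_le_left.trans le_sup_right)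
  have z2 : zz a b c ≤ a ⊔ c :=
    sup_le (sup_le (inf_le_left.trans le_sup_left) inf_le_right) (inf_le_left.trans le_sup_right)
  have z3 : zz a b c ≤ a ⊔ b :=
    sup_le (sup_le (inf_le_left.trans le_sup_left) (inf_le_left.trans le_sup_right)) inf_le_right
  have w1 : a ⊓ (b ⊔ c) ≤ zz a b c := le_sup_left.trans le_sup_left
  have w2 : b ⊓ (a ⊔ c) ≤ zz a b c := le_sup_right.trans le_sup_left
  have w3 : c ⊓ (a ⊔ b) ≤ zz a b c := le_sup_right
  exact main_fr (stage2 (z := zz a b c) le_sup_right le_sup_right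
    (indep_gen z1 w1) (indep_gen z2 w2) (indep_gen z3 w3)
    (sup_le (inf_le_right.trans (sup_le_sup le_sup_left le_sup_left))
      (le_sup_right.trans le_sup_left))
    (sup_le (inf_le_right.trans (sup_le_sup le_sup_left le_sup_left))
      (le_sup_right.trans le_sup_left))) m

end subspaces

end Pool.Agent.Y100.LAT
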