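import Mathlib
import Pool.Agent.Y100.LAT.Ident

/-! The inequality of `Ident.lean` fails in `Sub((ℤ/p²)³)`. -/

namespace Pool.Agent.Y100.LAT

open Submodule

section lines
variable {E : Type*} [CommRing E]

/-- the submodule generated by `(a,b,c)` -/
def line (a b c : E) : Submodule E (Fin 3 → E) := span E {![a, b, c]}

theorem mem_line {a b c : E} {w : Fin 3 → E} :
    w ∈ line a b c ↔ ∃ t : E, w 0 = t * a ∧ w 1 = t * b ∧ w 2 = t * c := by
  unfold line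
  rw [mem_span_singleton]
  constructor
  · rintro ⟨t, rfl⟩
    exact ⟨t, by simp, by simp, by simp⟩
  · rintro ⟨t, h0, h1, h2⟩
    refine ⟨t, ?_⟩
    funext i
    fin_cases i
    · simp [h0]
    · simp [h1]
    · simp [h2]

theorem step_le (k : E) :
    (((line 1 k 0 ⊔ line 0 1 1) ⊓ (line 1 0 1 ⊔ line 0 1 0)) ⊔ line 0 0 1) ⊓
      (line 1 0 0 ⊔ line 0 1 0) ≤ line 1 (k + 1) (0 : E) := by
  intro w hw
  obtain ⟨hw1, hw2⟩ := hw
  obtain ⟨a, ha, b, hb, rfl⟩ := mem_sup.mp hw1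
  obtain ⟨ha1, ha2⟩ := ha
  obtain ⟨a1, h1, a2, h2, h12⟩ := mem_sup.mp ha1
  obtain ⟨a3, h3, a4, h4, h34⟩ := mem_sup.mp ha2
  obtain ⟨c1, hc1, c2, hc2, hc⟩ := mem_sup.mp hw2
  rw [mem_line] at *
  obtain ⟨t1, h10, h11, h12'⟩ := h1
  obtain ⟨t2, h20, h21, h22⟩ := h2
  obtain ⟨t3, h30, h31, h32⟩ := h3
  obtain ⟨t4, h40, h41, h42⟩ := h4
  obtain ⟨t5, hb0, hb1, hb2⟩ := hb
  obtain ⟨t6, hc10, hc11, hc12⟩ := hc1
  obtain ⟨t7, hc20, hc21, hc22⟩ := hc2
  have e0 := congrFun h12 0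
  have e1 := congrFun h12 1
  have e2 := congrFun h12 2
  have f0 := congrFun h34 0
  have f1 := congrFun h34 1
  have f2 := congrFun h34 2
  have g2 := congrFun hc 2
  simp only [Pi.add_apply] at e0 e1 e2 f0 f1 f2 g2 ⊢
  refine ⟨t1, ?_, ?_, ?_⟩
  · rw [hb0, ← e0, h10, h20]; ring
  · have c : t3 = t1 := by linear_combination f0 - e0 - h30 - h40 + h10 + h20
    have d : t2 = t3 := by linear_combination e2 - f2 - h12' - h22 + h32 + h42
    have : t2 = t1 := d.trans c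
    rw [hb1, ← e1, h11, h21, this]; ring
  · rw [← g2, hc12, hc22]; ring

theorem le_step (k : E) :
    line 1 (k + 1) (0 : E) ≤
    (((line 1 k 0 ⊔ line 0 1 1) ⊓ (line 1 0 1 ⊔ line 0 1 0)) ⊔ line 0 0 1) ⊓
      (line 1 0 0 ⊔ line 0 1 0) := by
  intro w hw
  obtain ⟨t, h0, h1, h2⟩ := mem_line.mp hw
  have m1 : ∀ x y z : E, (![t * x, t * y, t * z] : Fin 3 → E) ∈ line x y z := fun x y z =>
    mem_line.mpr ⟨t, by simp, by simp, by simp⟩
  refine ⟨mem_sup.mpr ⟨![t, t * (k + 1), t], ⟨?_, ?_⟩, ![0, 0, -t], ?_, ?_⟩, ?_⟩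
  · refine mem_sup.mpr ⟨_, m1 1 k 0, _, m1 0 1 1, ?_⟩
    funext i
    fin_cases i
    · simp
    · simp; ring
    · simp
  · refine mem_sup.mpr ⟨_, m1 1 0 1, ![0, t * (k + 1), 0], ?_, ?_⟩
    · exact mem_line.mpr ⟨t * (k + 1), by simp, by simp, by simp⟩
    funext i
    fin_cases i
    · simp
    · simp
    · simp
  · exact mem_line.mpr ⟨-t, by simp, by simp, by simp⟩
  · funext i
    fin_cases i
    · simp [h0]
    · simp [h1]
    · simp [h2]
  · refine mem_sup.mpr ⟨_, m1 1 0 0, ![0, t * (k + 1), 0], ?_, ?_⟩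
    · exact mem_line.mpr ⟨t * (k + 1), by simp, by simp, by simp⟩
    funext i
    fin_cases i
    · simp [h0]
    · simp [h1]
    · simp [h2]

theorem G_line (k : ℕ) :
    G (line (1 : E) 0 0) (line 0 1 0) (line 0 0 1) (line 0 1 1) (line 1 0 1) k =
      line 1 (k : E) 0 := by
  induction k with
  | zero => simp [G]
  | succ k ih =>
    rw [G, ih]
    push_cast
    exact le_antisymm (step_le _) (le_step _)

theorem dis (w : Fin 3 → E) (h0 : w 0 = 0) (h1 : w 1 = 0) (h2 : w 2 = 0) : w = 0 := by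
  funext i
  fin_cases i
  · exact h0
  · exact h1
  · exact h2

theorem zz_line : zz (line (1 : E) 0 0) (line 0 1 0) (line 0 0 1) = ⊥ := by
  unfold zz
  rw [sup_eq_bot_iff, sup_eq_bot_iff]
  refine ⟨⟨?_, ?_⟩, ?_⟩
  all_goals
    rw [eq_bot_iff]
    rintro w ⟨h1, h2⟩
    obtain ⟨u, hu, v, hv, rfl⟩ := mem_sup.mp h2
    rw [SetLike.mem_coe, mem_line] at h1
    rw [mem_line] at hu hv
    obtain ⟨t, a0, a1, a2⟩ := h1
    obtain ⟨s, b0, b1, b2⟩ := hu
    obtain ⟨s', c0, c1, c2⟩ := hv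
    rw [mem_bot]
    simp only [Pi.add_apply, mul_zero, mul_one] at a0 a1 a2 b0 b1 b2 c0 c1 c2
    apply dis
    · simp only [Pi.add_apply]
      first | exact a0 | (rw [b0, c0, add_zero])
    · simp only [Pi.add_apply]
      first | exact a1 | (rw [b1, c1, add_zero])
    · simp only [Pi.add_apply]
      first | exact a2 | (rw [b2, c2, add_zero])

theorem q_le : line (0 : E) 1 1 ≤ line 0 1 0 ⊔ line 0 0 1 := by
  intro w hw
  obtain ⟨t, h0, h1, h2⟩ := mem_line.mp hw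
  refine mem_sup.mpr ⟨![0, t, 0], mem_line.mpr ⟨t, by simp, by simp, by simp⟩, ![0, 0, t],
    mem_line.mpr ⟨t, by simp, by simp, by simp⟩, ?_⟩
  funext i
  fin_cases i
  · simp [h0]
  · simp [h1]
  · simp [h2]

theorem r_le : line (1 : E) 0 1 ≤ line 1 0 0 ⊔ line 0 0 1 := by
  intro w hw
  obtain ⟨t, h0, h1, h2⟩ := mem_line.mp hw
  refine mem_sup.mpr ⟨![t, 0, 0], mem_line.mpr ⟨t, by simp, by simp, by simp⟩, ![0, 0, t],
    mem_line.mpr ⟨t, by simp, by simp, by simp⟩, ?_⟩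
  funext i
  fin_cases i
  · simp [h0]
  · simp [h1]
  · simp [h2]

theorem cr_line : line (0 : E) 0 1 ⊓ line 1 0 1 = ⊥ := by
  rw [eq_bot_iff]
  rintro w ⟨h1, h2⟩
  rw [SetLike.mem_coe, mem_line] at h1 h2
  obtain ⟨t, a0, a1, a2⟩ := h1
  obtain ⟨s, b0, b1, b2⟩ := h2
  simp only [mul_zero, mul_one] at a0 a1 a2 b0 b1 b2
  rw [mem_bot]
  exact dis _ a0 a1 (b2.trans (b0.symm.trans a0))

theorem bq_line : line (0 : E) 1 0 ⊓ line 0 1 1 = ⊥ := by
  rw [eq_bot_iff]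
  rintro w ⟨h1, h2⟩
  rw [SetLike.mem_coe, mem_line] at h1 h2
  obtain ⟨t, a0, a1, a2⟩ := h1
  obtain ⟨s, b0, b1, b2⟩ := h2
  simp only [mul_zero, mul_one] at a0 a1 a2 b0 b1 b2
  rw [mem_bot]
  exact dis _ a0 (b1.trans (b2.symm.trans a2)) a2

theorem nn_line : nn (line (0 : E) 1 0) (line 0 0 1) (line 0 1 1) (line 1 0 1) = ⊥ := by
  unfold nn
  rw [cr_line, sup_bot_eq, sup_bot_eq, bq_line]

theorem lhs_line (m : ℕ) :
    lhs m (line (1 : E) 0 0) (line 0 1 0) (line 0 0 1) (line 0 1 1) (line 1 0 1) =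
      lhs0 (line (1 : E) 0 0) (line 0 1 0) (line 0 0 1) (line 0 1 1) (line 1 0 1) m := by
  unfold lhs st1 st2
  simp only [zz_line, sup_bot_eq, inf_eq_left.mpr q_le, inf_eq_left.mpr r_le, nn_line]

theorem rhs_line (m : ℕ) :
    rhs m (line (1 : E) 0 0) (line 0 1 0) (line 0 0 1) (line 0 1 1) (line 1 0 1) =
      line (1 : E) m 0 := by
  unfold rhs st1 st2
  simp only [zz_line, sup_bot_eq, inf_eq_left.mpr q_le, inf_eq_left.mpr r_le, nn_line, G_line]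

theorem a_le_X : line (1 : E) 0 0 ≤
    line 1 0 0 ⊓ (line 1 0 1 ⊔ (line 0 0 1 ⊓ (line 0 1 1 ⊔ line 0 1 0))) := by
  refine le_inf le_rfl ?_
  intro w hw
  obtain ⟨t, h0, h1, h2⟩ := mem_line.mp hw
  refine mem_sup.mpr ⟨![t, 0, t], mem_line.mpr ⟨t, by simp, by simp, by simp⟩, ![0, 0, -t],
    ⟨mem_line.mpr ⟨-t, by simp, by simp, by simp⟩, ?_⟩, ?_⟩
  · refine mem_sup.mpr ⟨![0, -t, -t], mem_line.mpr ⟨-t, by simp, by simp, by simp⟩, ![0, t, 0],
      mem_line.mpr ⟨t, by simp, by simp, by simp⟩, ?_⟩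
    funext i
    fin_cases i
    · simp
    · simp
    · simp
  · funext i
    fin_cases i
    · simp [h0]
    · simp [h1]
    · simp [h2]

/-- the inequality fails if `m * m = 0` and `m ≠ 0` in the ring `E` -/
theorem fails (m : ℕ) (h1 : ((m * m : ℕ) : E) = 0) (h2 : (m : E) ≠ 0) :
    ¬ lhs m (line (1 : E) 0 0) (line 0 1 0) (line 0 0 1) (line 0 1 1) (line 1 0 1) ≤
      rhs m (line (1 : E) 0 0) (line 0 1 0) (line 0 0 1) (line 0 1 1) (line 1 0 1) := by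
  rw [lhs_line, rhs_line]
  unfold lhs0
  rw [G_line, h1]
  intro h
  have h3 : (![1, 0, 0] : Fin 3 → E) ∈ line (1 : E) m 0 :=
    h ⟨a_le_X (mem_line.mpr ⟨1, by simp, by simp, by simp⟩),
      mem_line.mpr ⟨1, by simp, by simp, by simp⟩⟩
  obtain ⟨t, a0, a1, -⟩ := mem_line.mp h3
  simp only [Matrix.cons_val_zero, Matrix.cons_val_one, mul_one] at a0 a1
  rw [← a0, one_mul] at a1
  exact h2 a1.symm

end lines

end Pool.Agent.Y100.LAT
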