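import Mathlib
import Pool.Agent.H686R3.LatticeFO
import Pool.Agent.Y100.LAT.Ultra
import Pool.Agent.Y100.LAT.Lines

/-! A nonprincipal ultraproduct of the lattices `Sub((ℤ/p²)³)` is a sublattice of the lattice of
subspaces of a rational vector space. -/

namespace Pool.Agent.Y100.LAT

open FirstOrder Filter Pool.Agent.H686R3

/-- the `i`-th prime -/
noncomputable abbrev pp (i : ℕ) : ℕ := Nat.nth Nat.Prime i

/-- the rings `ℤ/p²` -/
abbrev RR (i : ℕ) : Type := ZMod (pp i * pp i)

/-- the lattices `Sub((ℤ/p²)³)` -/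
abbrev SS (i : ℕ) : Type := Submodule (RR i) (Fin 3 → RR i)

theorem pp_prime (i : ℕ) : (pp i).Prime := Nat.prime_nth_prime i

theorem le_pp (i : ℕ) : i ≤ pp i := (Nat.nth_strictMono Nat.infinite_setOfPred_prime).le_apply

section ultraproduct

variable (U : Ultrafilter ℕ) (hU : (U : Filter ℕ) ≤ atTop)

include hU in
theorem eventually_isUnit (n : ℤ) (hn : n ≠ 0) :
    ∀ᶠ i in (U : Filter ℕ), IsUnit (n : RR i) := by
  have h2 : ∀ᶠ i in (U : Filter ℕ), n.natAbs < i :=
    Filter.Eventually.filter_mono hU (eventually_gt_atTop _)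
  filter_upwards [h2] with i hi
  have h3 : Nat.Coprime n.natAbs (pp i * pp i) := by
    have h4 : Nat.Coprime n.natAbs (pp i) := by
      rw [Nat.coprime_comm]
      exact ((pp_prime i).coprime_iff_not_dvd).mpr fun h5 =>
        absurd (Nat.le_of_dvd (Int.natAbs_pos.mpr hn) h5) (by have := le_pp i; omega)
    exact Nat.Coprime.mul_right h4 h4
  have h6 : IsUnit ((n.natAbs : ℕ) : RR i) := (ZMod.isUnit_iff_coprime _ _).mpr h3
  rcases Int.natAbs_eq n with h7 | h7
  · rw [h7, Int.cast_natCast]
    exact h6
  · rw [h7, Int.cast_neg, Int.cast_natCast]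
    exact h6.neg

/-- the rational numbers map to the ultraproduct of the rings `ℤ/p²` -/
noncomputable def ff : ℚ →+* URing U RR :=
  IsLocalization.lift (M := nonZeroDivisors ℤ) (g := Int.castRingHom (URing U RR))
    (fun y => isUnit_intCast U RR (y : ℤ)
      (eventually_isUnit U hU _ (nonZeroDivisors.ne_zero y.2)))

/-- the rational vector space -/
abbrev WQ : Type := QMod (ff U hU) (UMod U RR (fun i => Fin 3 → RR i))

/-- the map from the product of all `SS i` to the subspace lattice -/
noncomputable def Th (x : ∀ i, SS i) : Submodule ℚ (WQ U hU) :=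
  toQ (ff U hU) _ (uSub U RR (fun i => Fin 3 → RR i) x)

theorem Th_sup (x y : ∀ i, SS i) : Th U hU (x ⊔ y) = Th U hU x ⊔ Th U hU y := by
  unfold Th
  rw [uSub_sup, toQ_sup]

theorem Th_inf (x y : ∀ i, SS i) : Th U hU (x ⊓ y) = Th U hU x ⊓ Th U hU y := by
  unfold Th
  rw [uSub_inf, toQ_inf]

theorem Th_eq_iff (x y : ∀ i, SS i) :
    Th U hU x = Th U hU y ↔ ∀ᶠ i in (U : Filter ℕ), x i = y i := by
  unfold Th
  rw [(toQ_injective (ff U hU) _).eq_iff, uSub_eq_iff]

/-- the sublattice of all `Th x` -/
noncomputable def MQ : Sublattice (Submodule ℚ (WQ U hU)) where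
  carrier := Set.range (Th U hU)
  supClosed' := by
    rintro _ ⟨x, rfl⟩ _ ⟨y, rfl⟩
    exact ⟨x ⊔ y, Th_sup U hU x y⟩
  infClosed' := by
    rintro _ ⟨x, rfl⟩ _ ⟨y, rfl⟩
    exact ⟨x ⊓ y, Th_inf U hU x y⟩

/-- the underlying map of the isomorphism -/
noncomputable def isoF : (U : Filter ℕ).Product SS → MQ U hU :=
  Quotient.lift (s := (U : Filter ℕ).productSetoid SS) (fun x => ⟨Th U hU x, x, rfl⟩)
    (fun x y hxy => Subtype.ext ((Th_eq_iff U hU x y).mpr hxy))

theorem isoF_bijective : Function.Bijective (isoF U hU) := by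
  constructor
  · intro a b hab
    induction a using Quotient.inductionOn with
    | _ x =>
      induction b using Quotient.inductionOn with
      | _ y =>
        have h1 : Th U hU x = Th U hU y := congrArg Subtype.val hab
        exact Quotient.sound ((Th_eq_iff U hU x y).mp h1)
  · rintro ⟨_, x, rfl⟩
    exact ⟨(x : (U : Filter ℕ).Product SS), rfl⟩

/-- the ultraproduct of the lattices `SS i` is isomorphic to `MQ` -/
noncomputable def isoQ : (U : Filter ℕ).Product SS ≃[latLang] MQ U hU where
  toEquiv := Equiv.ofBijective (isoF U hU) (isoF_bijective U hU)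
  map_fun' := by
    intro n f x
    have hx : ∀ i, ∃ y : ∀ j, SS j, (y : (U : Filter ℕ).Product SS) = x i := fun i =>
      Quotient.exists_rep (x i)
    choose y hy using hx
    have hxy : x = fun i => (y i : (U : Filter ℕ).Product SS) := funext fun i => (hy i).symm
    subst hxy
    refine (congrArg (isoF U hU)
      (FirstOrder.Language.Ultraproduct.funMap_cast (u := U) f y)).trans ?_
    cases f with
    | sup =>
      apply Subtype.ext
      exact Th_sup U hU (y 0) (y 1)
    | inf =>
      apply Subtype.ext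
      exact Th_inf U hU (y 0) (y 1)
  map_rel' := by
    intro n r
    exact Empty.elim r

include hU in
/-- A sentence that is true in all sublattices of subspace lattices of rational vector spaces is
true in `Sub((ℤ/p²)³)` for almost all primes (with respect to the ultrafilter). -/
theorem coreU (σ : latLang.Sentence)
    (h : ∀ (M : Type) [Lattice M], (∃ (V : Type) (_ : AddCommGroup V) (_ : Module ℚ V)
      (f : LatticeHom M (Submodule ℚ V)), Function.Injective f) → M ⊨ σ) :
    ∀ᶠ i in (U : Filter ℕ), SS i ⊨ σ := by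
  rw [← FirstOrder.Language.Ultraproduct.sentence_realize]
  have h1 : MQ U hU ⊨ σ := h (MQ U hU) ⟨WQ U hU, inferInstance, inferInstance,
    Sublattice.subtype (MQ U hU), Subtype.coe_injective⟩
  exact (FirstOrder.Language.StrongHomClass.realize_sentence (isoQ U hU) σ).mpr h1

include hU in
/-- The same for identities. -/
theorem coreIdU (e : latLang.Term ℕ × latLang.Term ℕ)
    (h : ∀ (M : Type) [Lattice M], (∃ (V : Type) (_ : AddCommGroup V) (_ : Module ℚ V)
      (f : LatticeHom M (Submodule ℚ V)), Function.Injective f) →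
        ∀ v : ℕ → M, e.1.realize v = e.2.realize v)
    (v : ∀ i, ℕ → SS i) :
    ∀ᶠ i in (U : Filter ℕ), e.1.realize (v i) = e.2.realize (v i) := by
  have h1 := h (MQ U hU) ⟨WQ U hU, inferInstance, inferInstance,
    Sublattice.subtype (MQ U hU), Subtype.coe_injective⟩
    (fun n => isoQ U hU ((fun i => v i n : ∀ i, SS i) : (U : Filter ℕ).Product SS))
  have h2 : ∀ t : latLang.Term ℕ,
      t.realize (fun n => isoQ U hU ((fun i => v i n : ∀ i, SS i) : (U : Filter ℕ).Product SS)) =
        isoQ U hU (t.realize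
          (fun n => ((fun i => v i n : ∀ i, SS i) : (U : Filter ℕ).Product SS))) := fun t =>
    FirstOrder.Language.HomClass.realize_term (isoQ U hU)
  rw [h2, h2] at h1
  have h3 := (isoQ U hU).injective h1
  have h4 : ∀ t : latLang.Term ℕ,
      t.realize (fun n => ((fun i => v i n : ∀ i, SS i) : (U : Filter ℕ).Product SS)) =
        ((fun i => t.realize (v i) : ∀ i, SS i) : (U : Filter ℕ).Product SS) := fun t =>
    FirstOrder.Language.Ultraproduct.term_realize_cast (u := U) (fun n i => v i n) t
  exact Quotient.exact (s := (U : Filter ℕ).productSetoid SS)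
    ((h4 e.1).symm.trans (h3.trans (h4 e.2)))

end ultraproduct

/-- A sentence that is true in all sublattices of subspace lattices of rational vector spaces is
true in `Sub((ℤ/p²)³)` for all but finitely many primes `p`. -/
theorem coreQ (σ : latLang.Sentence)
    (h : ∀ (M : Type) [Lattice M], (∃ (V : Type) (_ : AddCommGroup V) (_ : Module ℚ V)
      (f : LatticeHom M (Submodule ℚ V)), Function.Injective f) → M ⊨ σ) :
    ∀ᶠ i in (atTop : Filter ℕ), SS i ⊨ σ := by
  by_contra hne
  have hfr : ∃ᶠ i in (atTop : Filter ℕ), ¬ SS i ⊨ σ := Filter.not_eventually.mp hne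
  have hNe : (atTop ⊓ 𝓟 {i : ℕ | ¬ SS i ⊨ σ} : Filter ℕ).NeBot :=
    Filter.frequently_mem_iff_neBot.mp hfr
  let U : Ultrafilter ℕ := Ultrafilter.of (atTop ⊓ 𝓟 {i : ℕ | ¬ SS i ⊨ σ})
  have hU : (U : Filter ℕ) ≤ atTop ⊓ 𝓟 {i : ℕ | ¬ SS i ⊨ σ} := Ultrafilter.of_le _
  have h1 := coreU U (hU.trans inf_le_left) σ h
  have h2 : ∀ᶠ i in (U : Filter ℕ), ¬ SS i ⊨ σ :=
    (hU.trans inf_le_right) (Filter.mem_principal_self _)
  obtain ⟨i, hi1, hi2⟩ := (h1.and h2).exists
  exact hi2 hi1

/-- The same for identities: an identity that is true in all sublattices of subspace lattices of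
rational vector spaces is true in `Sub((ℤ/p²)³)` for all but finitely many primes `p`. -/
theorem coreId (e : latLang.Term ℕ × latLang.Term ℕ)
    (h : ∀ (M : Type) [Lattice M], (∃ (V : Type) (_ : AddCommGroup V) (_ : Module ℚ V)
      (f : LatticeHom M (Submodule ℚ V)), Function.Injective f) →
        ∀ v : ℕ → M, e.1.realize v = e.2.realize v) :
    ∀ᶠ i in (atTop : Filter ℕ), ∀ v : ℕ → SS i, e.1.realize v = e.2.realize v := by
  classical
  by_contra hne
  have hfr : ∃ᶠ i in (atTop : Filter ℕ), ¬ ∀ v : ℕ → SS i, e.1.realize v = e.2.realize v :=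
    Filter.not_eventually.mp hne
  have hNe : (atTop ⊓ 𝓟 {i : ℕ | ¬ ∀ v : ℕ → SS i, e.1.realize v = e.2.realize v} :
      Filter ℕ).NeBot := Filter.frequently_mem_iff_neBot.mp hfr
  let U : Ultrafilter ℕ :=
    Ultrafilter.of (atTop ⊓ 𝓟 {i : ℕ | ¬ ∀ v : ℕ → SS i, e.1.realize v = e.2.realize v})
  have hU : (U : Filter ℕ) ≤
      atTop ⊓ 𝓟 {i : ℕ | ¬ ∀ v : ℕ → SS i, e.1.realize v = e.2.realize v} := Ultrafilter.of_le _
  have hch : ∀ i, ∃ v : ℕ → SS i, (¬ ∀ v : ℕ → SS i, e.1.realize v = e.2.realize v) →
      e.1.realize v ≠ e.2.realize v := by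
    intro i
    by_cases hi : ∀ v : ℕ → SS i, e.1.realize v = e.2.realize v
    · exact ⟨fun _ => ⊥, fun h => absurd hi h⟩
    · obtain ⟨v, hv⟩ := not_forall.mp hi
      exact ⟨v, fun _ => hv⟩
  choose v hv using hch
  have h1 := coreIdU U (hU.trans inf_le_left) e h v
  have h2 : ∀ᶠ i in (U : Filter ℕ), ¬ ∀ v : ℕ → SS i, e.1.realize v = e.2.realize v :=
    (hU.trans inf_le_right) (Filter.mem_principal_self _)
  obtain ⟨i, hi1, hi2⟩ := (h1.and h2).exists
  exact hv i hi2 hi1

section terms

/-- join of terms -/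
local instance termMax : Max (latLang.Term ℕ) :=
  ⟨fun s t => Language.Functions.apply₂ (LatFunc.sup : latLang.Functions 2) s t⟩

/-- meet of terms -/
local instance termMin : Min (latLang.Term ℕ) :=
  ⟨fun s t => Language.Functions.apply₂ (LatFunc.inf : latLang.Functions 2) s t⟩

variable {L : Type} [Lattice L] (v : ℕ → L)

theorem realize_max (s t : latLang.Term ℕ) : (s ⊔ t).realize v = s.realize v ⊔ t.realize v :=
  Language.Term.realize_functions_apply₂

theorem realize_min (s t : latLang.Term ℕ) : (s ⊓ t).realize v = s.realize v ⊓ t.realize v :=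
  Language.Term.realize_functions_apply₂

theorem realize_G (a b c q r : latLang.Term ℕ) (k : ℕ) :
    (G a b c q r k).realize v =
      G (a.realize v) (b.realize v) (c.realize v) (q.realize v) (r.realize v) k := by
  induction k with
  | zero => rfl
  | succ k ih => simp only [G, realize_max, realize_min, ih]

theorem realize_lhs (m : ℕ) (a b c q r : latLang.Term ℕ) :
    (lhs m a b c q r).realize v =
      lhs m (a.realize v) (b.realize v) (c.realize v) (q.realize v) (r.realize v) := by
  simp only [lhs, st1, st2, lhs0, nn, zz, realize_max, realize_min, realize_G]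

theorem realize_rhs (m : ℕ) (a b c q r : latLang.Term ℕ) :
    (rhs m a b c q r).realize v =
      rhs m (a.realize v) (b.realize v) (c.realize v) (q.realize v) (r.realize v) := by
  simp only [rhs, st1, st2, nn, zz, realize_max, realize_min, realize_G]

/-- the identity: `lhs m ⊔ rhs m = rhs m` in the variables `0, …, 4` -/
def ident (m : ℕ) : latLang.Term ℕ × latLang.Term ℕ :=
  (lhs m (Language.var 0) (Language.var 1) (Language.var 2) (Language.var 3) (Language.var 4) ⊔
    rhs m (Language.var 0) (Language.var 1) (Language.var 2) (Language.var 3) (Language.var 4),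
   rhs m (Language.var 0) (Language.var 1) (Language.var 2) (Language.var 3) (Language.var 4))

theorem ident_iff (m : ℕ) :
    (ident m).1.realize v = (ident m).2.realize v ↔
      lhs m (v 0) (v 1) (v 2) (v 3) (v 4) ≤ rhs m (v 0) (v 1) (v 2) (v 3) (v 4) := by
  unfold ident
  simp only [realize_max, realize_lhs, realize_rhs, Language.Term.realize_var, sup_eq_right]

end terms

/-- the identity fails in `Sub((ℤ/p²)³)` -/
theorem ident_fails (i : ℕ) :
    ∃ v : ℕ → SS i, (ident (pp i)).1.realize v ≠ (ident (pp i)).2.realize v := by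
  have hp := pp_prime i
  let l : Fin 5 → SS i := ![line 1 0 0, line 0 1 0, line 0 0 1, line 0 1 1, line 1 0 1]
  refine ⟨fun n => if h : n < 5 then l ⟨n, h⟩ else ⊥, fun h => ?_⟩
  rw [ident_iff] at h
  refine fails (E := RR i) (pp i) ?_ ?_ h
  · exact ZMod.natCast_self _
  · intro h2
    have h3 : pp i * pp i ∣ pp i := (ZMod.natCast_eq_zero_iff _ _).mp h2
    have h4 := Nat.le_of_dvd hp.pos h3
    have h5 := hp.two_le
    nlinarith

end Pool.Agent.Y100.LAT
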